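import Mathlib
import Pool.Agent.U935.KS.Main

/-!
# Arithmetic degrees and classes of curves

`V` is a projective variety of positive dimension over a number field, with its divisor classes,
its Weil heights, its Zariski topology and its pseudo-effective cone; `f : V → V` is an
endomorphism, and `f^*` acts on `N¹(V)`.

Nonzero linear forms on `N¹(V)` which are nonnegative on the nef cone are the nonzero classes in
the closed cone of curves; those which are nonnegative on the pseudo-effective cone are the
nonzero classes in the cone of movable curves. The theorem says that the arithmetic degree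
`a_f(x)` of every point with an infinite orbit is an eigenvalue of `f_*` with an eigenvector in
the closed cone of curves, and for a generic orbit in the cone of movable curves.

The proof compares the height `w` of a class `D` with the height `h` of an ample class. If
`f^* D - r D` is ample (big), then `w (f y) - r w (y) ≥ ε h(y) - C` (off a proper closed subset),
and `|w| ≤ C h`. For `r > 1` this forces the sequence `h(f^n x) / r^n` to decay exponentially or to
grow exponentially; for `r = 1` it forces exponential growth of `h(f^n x)` or infinitely many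
points of bounded height in the orbit.
-/

set_option autoImplicit false

namespace Pool.Agent.Results.MP_0e7dfd_ag.CurveClasses

open Pool.Agent.Q8.KS Pool.Agent.U935.KS Filter Topology

theorem result {G : Type} [Group G] (V : Variety G) (hV : NumberField V) (Z : Zariski V)
    (f : Morphism V V) (A : V.Pic) (hA : V.IsAmple A) (u : V.Pt → ℝ) (hu : V.IsHeight A u) :
    -- (1) the alternatives
    Alternative f V.Nef ∧ Alternative f Z.Eff ∧
    -- (2) infinite orbits
    (∀ x : V.Pt, InfiniteOrbit f x → EigenDegree f u V.Nef x) ∧
    -- (3) generic orbits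
    (∀ x : V.Pt, GenericOrbit Z f x → EigenDegree f u Z.Eff x) ∧
    (ClosedProper Z f → ∀ x : V.Pt, MordellLang Z f x → DenseOrbit Z f x →
      GenericOrbit Z f x) ∧
    -- (4) the conjecture of Kawaguchi and Silverman
    ∀ d : ℝ, IsDynamicalDegree f A d →
      (Shifts f V.Nef d ∨ Annihilated f V.Nef d →
        ∀ x : V.Pt, InfiniteOrbit f x → IsArithmeticDegree f u x d) ∧
      (Shifts f Z.Eff d ∨ Annihilated f Z.Eff d →
        ∀ x : V.Pt, GenericOrbit Z f x → IsArithmeticDegree f u x d) := by
  have hAE : V.cls A ∈ interior Z.Eff := interior_mono Z.nef_subset hA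
  have main : ∀ (C : Set V.NS), IsCone C → V.Nef ⊆ C → ∀ x : V.Pt, LowerBounded f C x →
      InfiniteOrbit f x → EigenDegree f u C x := by
    intro C hC hn x hx hinf
    obtain ⟨a, ha1, ha⟩ := limit_exists f x hA hu
    obtain ⟨z, hz, -⟩ := eigenclass hV f hC hn hx hinf hA hu ha
    exact ⟨a, ha1, ha, z, hz⟩
  have hgen : ∀ x : V.Pt, GenericOrbit Z f x → EigenDegree f u Z.Eff x := fun x hx =>
    main Z.Eff Z.eff_cone Z.nef_subset x (lowerBounded_eff Z f hx) (generic_infinite Z f hx)
  have hinf : ∀ x : V.Pt, InfiniteOrbit f x → EigenDegree f u V.Nef x := fun x hx =>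
    main V.Nef V.nef_cone subset_rfl x (lowerBounded_nef f x) hx
  refine ⟨alternative f V.nef_cone hA, alternative f Z.eff_cone hAE,
    hinf, hgen, fun hcp x hml hx => generic_of_dense Z f hcp hml hx, ?_⟩
  intro d hd
  have key : ∀ (C : Set V.NS), IsCone C → V.Nef ⊆ C → V.cls A ∈ interior C →
      (Shifts f C d ∨ Annihilated f C d) → ∀ x : V.Pt, EigenDegree f u C x →
        IsArithmeticDegree f u x d := by
    rintro C hC hn hAC hcase x ⟨a, ha1, ha, z, hz⟩
    have hle := eigen_le f hC hn hA hd (by linarith) hz
    rcases hle.lt_or_eq with hlt | rfl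
    · exfalso
      rcases hcase with h | ⟨p, B, hp, hB, hBi⟩
      · exact (alternative f hC hAC a).1 ⟨z, hz⟩ (h a ha1 hlt)
      · have h1 := aeval_eigen hz p B
        rw [hB, map_zero] at h1
        exact mul_ne_zero (hp a ha1 hlt) (pos_interior hC hz hBi).ne' h1.symm
    · exact ha
  exact ⟨fun h x hx => key V.Nef V.nef_cone subset_rfl hA h x (hinf x hx),
    fun h x hx => key Z.Eff Z.eff_cone Z.nef_subset hAE h x (hgen x hx)⟩

end Pool.Agent.Results.MP_0e7dfd_ag.CurveClasses
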