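import Mathlib
import Pool.Agent.U935.PR.Sub

/-!
# The Kawaguchi-Silverman conjecture for groups of automorphisms of rank the Picard number minus one

`V` is a projective variety over a number field, of any dimension `n` and of Picard number
`ρ = r + 1 ≥ 2`, and `Γ` is an abelian group of automorphisms of `V` which contains a free abelian
group of rank `r` all of whose nonzero elements have positive entropy, that is first dynamical
degree larger than one. (By Dinh and Sibony `r ≤ n - 1`; here `r` may be much smaller.)

The theorem derives the following from standard facts.

* The nef cone and the pseudo-effective cone of `V` are equal to one simplicial cone, spanned by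
  common eigenclasses `c_1, …, c_ρ` of `Γ`, `g^* c_i = e^{χ_i(g)} c_i`.
* The Picard number `ρ` divides the dimension of `V`, and the dimension of each subvariety with
  finitely many translates under `Γ`. The Zariski closure of an infinite orbit is the union of
  finitely many such subvarieties; so infinite orbits are dense if `n < 2 ρ`.
* For **every** point `x` of `V`, without exceptional locus, either the orbit of `x` under `Γ` is
  finite, or `h(g x)` is `∑_i e^{χ_i(g)}` up to constant factors for all `g` in `Γ`, and the
  arithmetic degree of `g` at `x` is the dynamical degree of `g`, which is `max_i e^{χ_i(g)}`, for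
  all `g`.
* The points with finite orbit have bounded height, and there are finitely many of bounded degree.
  All `g` in `Γ` of positive entropy have the same periodic points, the points with finite orbit.

So the conjecture holds for all elements of `Γ`, and at all points with an infinite orbit, dense or
not.

The proof: by the Perron-Frobenius theorem for the nef cone and the integrality of the action on
the Néron-Severi lattice there are `ρ` different characters on nef classes, whose logarithms
generate a lattice in the hyperplane of sum zero. So the eigenclasses form a basis, and a cone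
which is invariant and contains no line is determined. The sum of the eigenclasses is ample, and
canonical heights for the eigenclasses give the rest.
-/

set_option autoImplicit false

namespace Pool.Agent.Results.MP_0e7dfd_ag.PicardRankGroups

open Pool.Agent.Q8.KS Pool.Agent.U935.PR Topology
open Pool.Agent.U935.KS (Zariski NumberField InfiniteOrbit topRate)

theorem result {G Γ : Type} [Group G] [AddCommGroup Γ] (V : Variety G) (hV : NumberField V)
    (Z : Zariski V) (r : ℕ) (hr : 1 ≤ r) (P : LatticeAction V Z Γ (r + 1))
    (hP : EntropyRank P r) :
    -- the conjecture, and the heights along orbits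
    (∃ χ : Fin (r + 1) → Γ →+ ℝ, Simplicial P χ ∧
      ∀ (A : V.Pic) (u : V.Pt → ℝ), V.IsAmple A → V.IsHeight A u →
        (∀ g, IsDynamicalDegree (P.act g) A (topRate χ g)) ∧
        (∀ x, InfiniteUnder P x → HeightGrowth P u χ x ∧
          ∀ g, IsArithmeticDegree (P.act g) u x (topRate χ g)) ∧
        (∃ C : ℝ, ∀ x, ¬ InfiniteUnder P x → u x ≤ C) ∧
        (∀ e : ℕ, {x | (MulAction.orbit G x).ncard ≤ e ∧ ¬ InfiniteUnder P x}.Finite) ∧
        ∀ g, 1 < topRate χ g → ∀ x, InfiniteOrbit (P.act g) x ↔ InfiniteUnder P x) ∧
    -- subvarieties and closures of orbits
    ∀ S : SubvarietyData P,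
      r + 1 ∣ V.dimPred + 1 ∧
      (∀ W : Set V.Pt, IsClosed[Z.top] W → @IsIrreducible _ Z.top W →
        FinitelyManyTranslates P W → r + 1 ∣ S.dim W) ∧
      (∀ x, InfiniteUnder P x → ∃ W, OrbitClosure P x W ∧ r + 1 ∣ S.dim W) ∧
      (V.dimPred + 1 < 2 * (r + 1) → ∀ x, InfiniteUnder P x →
        @Dense _ Z.top (Set.range fun g : Γ => (P.act g).pt x)) :=
  ⟨main hV hr P hP, subvarieties hr P hP⟩

end Pool.Agent.Results.MP_0e7dfd_ag.PicardRankGroups
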