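import Mathlib
import Pool.Agent.U935.KS.Derive

/-!
# The Kawaguchi-Silverman conjecture for abelian groups of maximal rank and positive entropy

`V` is a projective variety of dimension `n ≥ 2` over a number field and `Γ` an abelian group of
automorphisms of `V` which contains a free abelian group of rank `n - 1` all of whose nonzero
elements have positive entropy, that is first dynamical degree larger than one.

The theorem derives the following from standard facts on nef classes (`Geometry`: intersection
numbers, the Hodge index theorem, the Néron-Severi lattice, augmented base loci) and on
heights.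

* There are characters `χ_1, …, χ_n` of `Γ` and nef classes `c_i` with `g^* c_i = e^{χ_i(g)} c_i`
  and `c_1 ⋯ c_n > 0`; the sum of the characters is zero and any `n - 1` of them are independent
  (a theorem of Dinh and Sibony for compact Kähler manifolds; the proof here uses the
  Perron-Frobenius theorem for the nef cone, the Hodge index theorem and the integrality of the
  action on the Néron-Severi lattice).
* Let `B` be the augmented base locus of the nef and big class `∑ c_i`. For `x` outside of `B`
  with infinite `Γ`-orbit, the heights of the points `g x` are `∑ e^{χ_i(g)}` up to constant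
  factors, uniformly in `g`, and so the arithmetic degree of each `g` at `x` is the first
  dynamical degree `max_i e^{χ_i(g)}`; only finitely many points of bounded degree outside of `B`
  have a finite `Γ`-orbit.
* The conjecture of Kawaguchi and Silverman holds for all elements of `Γ`: the arithmetic degree
  is the dynamical degree at all points with a Zariski dense orbit.
-/

set_option autoImplicit false

namespace Pool.Agent.Results.MP_0e7dfd_ag.PositiveEntropyGroups

open Pool.Agent.Q8.KS Pool.Agent.U935.KS Filter Topology

theorem result {G Γ : Type} [Group G] [AddCommGroup Γ] (V : Variety G) (hV : NumberField V)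
    (Z : Zariski V) (Q : Geometry V Z) (P : GroupAction Q Γ) (hdim : 2 ≤ V.dimPred + 1)
    (hP : MaximalEntropyRank P) :
    ∃ (χ : Fin (V.dimPred + 1) → Γ →+ ℝ) (B : Set V.Pt), NefCharacters P χ ∧ Exceptional P B ∧
      ∀ (A : V.Pic) (u : V.Pt → ℝ), V.IsAmple A → V.IsHeight A u →
        -- the first dynamical degrees
        (∀ g : Γ, IsDynamicalDegree (P.act g) A (topRate χ g)) ∧
        -- infinite orbits outside of `B`
        (∀ x, x ∉ B → InfiniteUnder P x → HeightGrowth P u χ x ∧
          ∀ g : Γ, IsArithmeticDegree (P.act g) u x (topRate χ g)) ∧
        -- finite orbits outside of `B`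
        (∀ e : ℕ, {x | x ∉ B ∧ (MulAction.orbit G x).ncard ≤ e ∧ ¬ InfiniteUnder P x}.Finite) ∧
        -- the conjecture of Kawaguchi and Silverman
        ∀ (g : Γ) (x : V.Pt), DenseOrbit Z (P.act g) x →
          IsArithmeticDegree (P.act g) u x (topRate χ g) :=
  kawaguchi_silverman hV P (by omega) hP

end Pool.Agent.Results.MP_0e7dfd_ag.PositiveEntropyGroups
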