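import Mathlib

/-!
# The Kawaguchi-Silverman conjecture for endomorphisms: a uniform bound with a loss suffices

Let `V` be a variety over a number field `K`. If `f` is an endomorphism of `V` over `K` and the orbit
of `x ∈ V(K)` is dense, then for every `m ≥ 1` some point `f^i(x)`, `0 ≤ i < m`, has a dense orbit
under `f^m` (`V` is irreducible), with `a_{f^m}(f^i(x)) = a_f(x)^m`, and `d_1(f^m) = d_1(f)^m`. So a
lower bound for the arithmetic degree by `d_1(f)^(1-ε)` up to a constant factor, uniformly for the
surjective endomorphisms of `V` over `K` in a class which contains large iterates of each endomorphism, gives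
the equality for all.
-/

set_option autoImplicit false

namespace Pool.Agent.Results.MP_0e7dfd_ag.SubpolynomialLossSuffices

/-- `End`: the surjective endomorphisms over `K` of a variety `V` over a number field `K` (an
endomorphism with a dense orbit is surjective); `Pt`: the points `V(K)`; `iter f m`: the `m`-th iterate; `d f`: the first dynamical degree; `a f x`: the arithmetic
degree; `Dense f x`: the orbit of `x` under `f` is Zariski dense. -/
structure Dynamics where
  End : Type
  Pt : Type
  iter : End → ℕ → End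
  d : End → ℝ
  a : End → Pt → ℝ
  Dense : End → Pt → Prop

/-- The facts used: `1 ≤ a_f(x) ≤ d_1(f)`; the dynamical degree of iterates; some point of a dense
orbit has a dense orbit under the `m`-th iterate, and its arithmetic degree. -/
structure Facts (D : Dynamics) : Prop where
  one_le : ∀ f x, 1 ≤ D.a f x
  le_d : ∀ f x, D.a f x ≤ D.d f
  d_iter : ∀ f m, 1 ≤ m → D.d (D.iter f m) = D.d f ^ m
  dense_iter : ∀ f x m, 1 ≤ m → D.Dense f x →
    ∃ y, D.Dense (D.iter f m) y ∧ D.a (D.iter f m) y = D.a f x ^ m

/-- Let `E` be a class of endomorphisms which contains arbitrarily high iterates of every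
endomorphism. Then `a_f(x) = d_1(f)` for all endomorphisms `f` of `V` over `K` and all `x ∈ V(K)` with
dense orbit if and only if for every `ε > 0` there is `C` with
`log d_1(f) ≤ (1 + ε) log a_f(x) + C` for all `f` in `E` and all such `x`. -/
theorem result (D : Dynamics) (h : Facts D) (E : Set D.End)
    (hE : ∀ f, ∀ N : ℕ, ∃ m, N ≤ m ∧ 1 ≤ m ∧ D.iter f m ∈ E) :
    (∀ f x, D.Dense f x → D.a f x = D.d f) ↔
    (∀ ε : ℝ, 0 < ε → ∃ C : ℝ, ∀ f ∈ E, ∀ x, D.Dense f x →
      Real.log (D.d f) ≤ (1 + ε) * Real.log (D.a f x) + C) := by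
  constructor
  · intro hk ε hε
    refine ⟨0, fun f _ x hx => ?_⟩
    rw [hk f x hx]
    have h1 : 1 ≤ D.d f := (h.one_le f x).trans (h.le_d f x)
    have h2 := Real.log_nonneg h1
    nlinarith
  · intro hb f x hx
    have ha := h.one_le f x
    have had := h.le_d f x
    have hla : 0 ≤ Real.log (D.a f x) := Real.log_nonneg ha
    refine le_antisymm had ?_
    by_contra hlt
    rw [not_le] at hlt
    have hlog : Real.log (D.a f x) < Real.log (D.d f) :=
      Real.log_lt_log (by linarith) hlt
    set u := Real.log (D.a f x) with hu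
    set v := Real.log (D.d f) with hv
    -- `ε` with `(1 + ε) u + ε ≤ v`
    obtain ⟨ε, hε, hεu⟩ : ∃ ε : ℝ, 0 < ε ∧ (1 + ε) * u + ε ≤ v := by
      refine ⟨(v - u) / (u + 1), div_pos (by linarith) (by linarith), ?_⟩
      have h1 : (v - u) / (u + 1) * (u + 1) = v - u :=
        div_mul_cancel₀ _ (by linarith)
      nlinarith
    obtain ⟨C, hC⟩ := hb ε hε
    obtain ⟨N, hN⟩ := exists_nat_gt (C / ε)
    obtain ⟨m, hNm, hm1, hmE⟩ := hE f N
    obtain ⟨y, hy1, hy2⟩ := h.dense_iter f x m hm1 hx
    have h1 := hC _ hmE y hy1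
    rw [h.d_iter f m hm1, hy2, Real.log_pow, Real.log_pow, ← hu, ← hv] at h1
    have h2 : C < ε * m := by
      rw [div_lt_iff₀ hε] at hN
      have h3 : (N : ℝ) ≤ m := by exact_mod_cast hNm
      nlinarith
    have h4 : (m : ℝ) * ((1 + ε) * u + ε) ≤ m * v :=
      mul_le_mul_of_nonneg_left hεu (Nat.cast_nonneg m)
    nlinarith

end Pool.Agent.Results.MP_0e7dfd_ag.SubpolynomialLossSuffices
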